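import Pool.Agent.L7h27.SI.Stm

/-! [ZA] of project SI (helper27): two generators of a normal subgroup of order `p^2`, directly. -/

set_option autoImplicit false

namespace Pool.Agent.L7h45.SI

section
variable {G : Type*} [Group G]

theorem pow_mul_comm_of {a b c : G} (hc : ∀ g, c * g = g * c) (h : b * a = a * b * c) (n : ℕ) :
    b ^ n * a = a * b ^ n * c ^ n := by
  induction n with
  | zero => simp
  | succ n ih =>
    have hb : Commute (c ^ n) b := (show Commute c b from hc b).pow_left n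
    calc b ^ (n + 1) * a = b ^ n * (b * a) := by rw [pow_succ, mul_assoc]
      _ = (b ^ n * a) * b * c := by rw [h]; simp only [mul_assoc]
      _ = a * b ^ n * (c ^ n * b) * c := by rw [ih]; simp only [mul_assoc]
      _ = a * b ^ n * (b * c ^ n) * c := by rw [hb.eq]
      _ = a * b ^ (n + 1) * c ^ (n + 1) := by rw [pow_succ, pow_succ]; simp only [mul_assoc]

theorem mul_pow_hall {a b c : G} (hc : ∀ g, c * g = g * c) (h : b * a = a * b * c) (n : ℕ) :
    (a * b) ^ n = a ^ n * b ^ n * c ^ (n.choose 2) := by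
  induction n with
  | zero => simp
  | succ n ih =>
    have h2 : (n + 1).choose 2 = n + n.choose 2 := by
      rw [Nat.choose_succ_succ' n 1, Nat.choose_one_right]
    have h3 : ∀ (m : ℕ) (g : G), c ^ m * g = g * c ^ m := fun m g =>
      ((show Commute c g from hc g).pow_left m).eq
    calc (a * b) ^ (n + 1) = a ^ n * b ^ n * c ^ (n.choose 2) * (a * b) := by rw [pow_succ, ih]
      _ = a ^ n * (b ^ n * a) * b * c ^ (n.choose 2) := by
        rw [mul_assoc (a ^ n * b ^ n), h3]
        simp only [mul_assoc]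
      _ = a ^ n * a * b ^ n * (c ^ n * b) * c ^ (n.choose 2) := by
        rw [pow_mul_comm_of hc h]
        simp only [mul_assoc]
      _ = a ^ n * a * b ^ n * b * c ^ n * c ^ (n.choose 2) := by
        rw [h3]
        simp only [mul_assoc]
      _ = a ^ (n + 1) * b ^ (n + 1) * c ^ ((n + 1).choose 2) := by
        rw [h2, pow_add c, pow_succ a, pow_succ b]
        simp only [mul_assoc]

theorem mul_pow_p {p : ℕ} (hp : p.Prime) (h2 : p ≠ 2) {a b c : G} (hc : ∀ g, c * g = g * c)
    (hcp : c ^ p = 1) (h : b * a = a * b * c) : (a * b) ^ p = a ^ p * b ^ p := by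
  rw [mul_pow_hall hc h]
  have h3 : 2 < p := lt_of_le_of_ne hp.two_le (Ne.symm h2)
  obtain ⟨k, hk⟩ : p ∣ p.choose 2 := hp.dvd_choose_self (by norm_num) h3
  rw [hk, pow_mul, hcp, one_pow, mul_one]

end

/-- the conclusion -/
def Con (p : ℕ) (P : Type) [Group P] : Prop :=
  ∃ z a : P, z ≠ 1 ∧ z ^ p = 1 ∧ a ^ p = 1 ∧ (∀ h : P, h * z = z * h) ∧ (∀ j : ℕ, a * z ^ j ≠ 1) ∧
    ∀ h : P, ∃ c : ℕ, h * a * h⁻¹ = a * z ^ c

section
variable {p : ℕ} {P : Type} [Group P] [Finite P]

/-- a central element of order `p` -/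
theorem exists_central (hp : p.Prime) (hP : IsPGroup p P) (hn : Nontrivial P) :
    ∃ z : P, z ≠ 1 ∧ z ^ p = 1 ∧ ∀ h : P, h * z = z * h := by
  haveI := Fact.mk hp
  have hc := hP.center_nontrivial
  have hPc := hP.to_subgroup (Subgroup.center P)
  obtain ⟨n, hn0, hcard⟩ := hPc.nontrivial_iff_card.1 hc
  have hd : p ∣ Nat.card (Subgroup.center P) := by
    rw [hcard]
    exact dvd_pow_self p (by omega)
  obtain ⟨z, hz⟩ := exists_prime_orderOf_dvd_card' p hd
  refine ⟨z, ?_, ?_, ?_⟩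
  · intro h
    have : z = 1 := Subtype.ext h
    rw [this, orderOf_one] at hz
    exact hp.one_lt.ne hz
  · have := pow_orderOf_eq_one z
    rw [hz] at this
    exact_mod_cast congrArg Subtype.val this
  · intro h
    exact (Subgroup.mem_center_iff.1 z.2 h)

/-- powers of an element of order `p` -/
theorem gen_of_ne_one (hp : p.Prime) {z w : P} (hz : z ^ p = 1) {i : ℕ} (hw : w = z ^ i) (hw1 : w ≠ 1) :
    ∃ l : ℕ, z = w ^ l := by
  have hcop : Nat.Coprime i p := by
    rw [Nat.coprime_comm]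
    rw [hp.coprime_iff_not_dvd]
    rintro ⟨k, rfl⟩
    apply hw1
    rw [hw, pow_mul, hz, one_pow]
  obtain ⟨l, -, hl⟩ := Nat.exists_mul_mod_eq_one_of_coprime hcop hp.one_lt
  refine ⟨l, ?_⟩
  rw [hw, ← pow_mul]
  conv_lhs => rw [← pow_one z]
  rw [← pow_mod_orderOf, ← pow_mod_orderOf z (i * l)]
  have hd : orderOf z ∣ p := orderOf_dvd_of_pow_eq_one hz
  congr 1
  have h1 : (i * l) % p = 1 % p := by rw [hl, Nat.mod_eq_of_lt hp.one_lt]
  exact ((Nat.ModEq.of_dvd hd (show (i * l) ≡ 1 [MOD p] from h1))).symm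

theorem con_of_quot_cyclic (hp : p.Prime) (hP : IsPGroup p P) (hnc : ¬ IsCyclic P) {z : P}
    (hz1 : z ≠ 1) (hz : z ^ p = 1) (hzc : ∀ h : P, h * z = z * h) {Q : Type} [Group Q] [Finite Q] (q : P →* Q)
    (hq : Function.Surjective q) (hk : ∀ g, q g = 1 → ∃ j : ℕ, g = z ^ j) (hqz : q z = 1)
    (hQ : IsCyclic Q) : Con p P := by
  haveI := Fact.mk hp
  have hcomm : ∀ a b : P, a * b = b * a := by
    apply commutative_of_cyclic_center_quotient q
    intro g hg
    rw [MonoidHom.mem_ker] at hg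
    obtain ⟨j, rfl⟩ := hk g hg
    rw [Subgroup.mem_center_iff]
    intro h
    exact ((show Commute h z from hzc h).pow_right j).eq
  obtain ⟨g', hg'⟩ := hQ.exists_generator
  obtain ⟨g, rfl⟩ := hq g'
  have hPQ : IsPGroup p Q := hP.of_surjective q hq
  obtain ⟨m, hm⟩ := IsPGroup.iff_card.1 hPQ
  have hord : orderOf (q g) = p ^ m := by
    rw [← hm]
    exact orderOf_eq_card_of_forall_mem_zpowers hg'
  have hgen : ∀ h : P, ∃ (n j : ℕ), h = g ^ n * z ^ j := by
    intro h
    obtain ⟨n, hn⟩ := (mem_powers_iff_mem_zpowers.2 (hg' (q h)) : q h ∈ Submonoid.powers (q g))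
    have : q ((g ^ n)⁻¹ * h) = 1 := by
      have hn' : q g ^ n = q h := hn
      rw [map_mul, map_inv, map_pow, hn', inv_mul_cancel]
    obtain ⟨j, hj⟩ := hk _ this
    exact ⟨n, j, by rw [← hj, mul_inv_cancel_left]⟩
  have hgN : g ^ (p ^ m) = 1 := by
    by_contra hne
    have h1 : q (g ^ (p ^ m)) = 1 := by rw [map_pow, ← hord, pow_orderOf_eq_one]
    obtain ⟨i, hi⟩ := hk _ h1
    obtain ⟨l, hl⟩ := gen_of_ne_one hp hz hi hne
    apply hnc
    refine ⟨g, fun h => ?_⟩
    obtain ⟨n, j, rfl⟩ := hgen h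
    rw [hl, ← pow_mul, ← pow_mul, ← pow_add]
    exact Subgroup.npow_mem_zpowers g _
  cases m with
  | zero =>
    exfalso
    apply hnc
    rw [pow_zero, pow_one] at hgN
    refine ⟨z, fun h => ?_⟩
    obtain ⟨n, j, rfl⟩ := hgen h
    rw [hgN, one_pow, one_mul]
    exact Subgroup.npow_mem_zpowers z _
  | succ m =>
    refine ⟨z, g ^ (p ^ m), hz1, hz, ?_, hzc, ?_, ?_⟩
    · rw [← pow_mul, ← pow_succ, hgN]
    · intro j hj
      have h1 := congrArg q hj
      rw [map_mul, map_pow, map_pow, hqz, one_pow, mul_one, map_one] at h1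
      have h2 := orderOf_dvd_of_pow_eq_one h1
      rw [hord] at h2
      have h3 := (Nat.pow_dvd_pow_iff_le_right hp.one_lt).1 h2
      omega
    · intro h
      exact ⟨0, by rw [hcomm h, mul_inv_cancel_right, pow_zero, mul_one]⟩

theorem con_of_quot (hp : p.Prime) (h2 : p ≠ 2) {z0 : P}
    (hz1 : z0 ≠ 1) (hz : z0 ^ p = 1) (hzc : ∀ h : P, h * z0 = z0 * h) {Q : Type} [Group Q] [Finite Q]
    (q : P →* Q)
    (hq : Function.Surjective q) (hk : ∀ g, q g = 1 → ∃ j : ℕ, g = z0 ^ j) (hqz : q z0 = 1)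
    (hQ : Con p Q) : Con p P := by
  have := Fact.mk hp
  obtain ⟨z', a', hz1', hzp', hap', hzc', hne', hcj'⟩ := hQ
  obtain ⟨y, rfl⟩ := hq z'
  obtain ⟨x, rfl⟩ := hq a'
  have hy0 : ∀ h : P, ∃ c : ℕ, h * y * h⁻¹ = y * z0 ^ c := by
    intro h
    have : q (y⁻¹ * (h * y * h⁻¹)) = 1 := by
      rw [map_mul, map_mul, map_mul, map_inv, map_inv, hzc' (q h)]
      group
    obtain ⟨c, hc⟩ := hk _ this
    exact ⟨c, by rw [← hc, mul_inv_cancel_left]⟩
  by_cases hyp : y ^ p = 1
  · refine ⟨z0, y, hz1, hz, hyp, hzc, ?_, hy0⟩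
    intro j hj
    have h1 := congrArg q hj
    rw [map_mul, map_pow, hqz, one_pow, mul_one, map_one] at h1
    exact hz1' h1
  · -- `z := y ^ p` generates the kernel
    have h1 : q (y ^ p) = 1 := by rw [map_pow, hzp']
    obtain ⟨i, hi⟩ := hk _ h1
    obtain ⟨l, hl⟩ := gen_of_ne_one hp hz hi hyp
    obtain ⟨z, hzdef⟩ : ∃ z : P, z = y ^ p := ⟨_, rfl⟩
    rw [← hzdef] at hl hi hyp h1
    have hzz : z ^ p = 1 := by rw [hi, ← pow_mul, mul_comm, pow_mul, hz, one_pow]
    have hcz : ∀ h : P, z * h = h * z := by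
      intro h
      rw [hi]
      exact (((show Commute h z0 from hzc h).pow_right i).eq).symm
    have hczn : ∀ (n : ℕ) (h : P), z ^ n * h = h * z ^ n := fun n h =>
      ((show Commute z h from hcz h).pow_left n).eq
    have hk' : ∀ g, q g = 1 → ∃ j : ℕ, g = z ^ j := by
      intro g hg
      obtain ⟨j, hj⟩ := hk g hg
      exact ⟨l * j, by rw [hj, hl, ← pow_mul]⟩
    have hy : ∀ h : P, ∃ c : ℕ, h * y * h⁻¹ = y * z ^ c := by
      intro h
      obtain ⟨c, hc⟩ := hy0 h
      exact ⟨l * c, by rw [hc, hl, ← pow_mul]⟩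
    have hx : ∀ h : P, ∃ c d : ℕ, h * x * h⁻¹ = x * y ^ c * z ^ d := by
      intro h
      obtain ⟨c, hc⟩ := hcj' (q h)
      have : q ((x * y ^ c)⁻¹ * (h * x * h⁻¹)) = 1 := by
        rw [map_mul, map_inv, map_mul, map_mul, map_mul, map_pow, map_inv, hc, inv_mul_cancel]
      obtain ⟨d, hd⟩ := hk' _ this
      exact ⟨c, d, by rw [← hd, mul_inv_cancel_left]⟩
    -- commutator of `x` and `y`
    obtain ⟨c, hc⟩ := hy x⁻¹
    have hyx : y * x = x * y * z ^ c := by
      rw [inv_inv] at hc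
      have := congrArg (fun t => x * t) hc
      simpa only [mul_assoc, mul_inv_cancel_left] using this
    have hcc : ∀ (n : ℕ) (g : P), (z ^ n) * g = g * z ^ n := hczn
    have hyn : ∀ n : ℕ, y ^ n * x = x * y ^ n * (z ^ c) ^ n := fun n =>
      pow_mul_comm_of (hczn c) hyx n
    have hxp : q (x ^ p) = 1 := by rw [map_pow, hap']
    obtain ⟨k, hk1⟩ := hk' _ hxp
    obtain ⟨m, hm⟩ : ∃ m : ℕ, m = (p - 1) * k := ⟨_, rfl⟩
    have hzpow : ∀ n j : ℕ, (z ^ n) ^ j = z ^ (n * j) := fun n j => (pow_mul z n j).symm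
    have hap : (x * y ^ m) ^ p = 1 := by
      rw [mul_pow_p hp h2 (c := z ^ (c * m)) (hczn _) (by rw [← pow_mul, mul_comm, pow_mul, hzz, one_pow])
        (by rw [hyn, hzpow]), hk1, ← pow_mul, mul_comm m p, pow_mul, ← hzdef, ← pow_add, hm]
      have : k + (p - 1) * k = p * k := by
        obtain ⟨r, hr⟩ : ∃ r, p = r + 1 := ⟨p - 1, by have := hp.pos; omega⟩
        rw [hr, Nat.add_sub_cancel]
        ring
      rw [this, pow_mul, hzz, one_pow]
    refine ⟨z, x * y ^ m, hyp, hzz, hap, fun h => (hcz h).symm, ?_, ?_⟩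
    · intro j hj
      have h3 := congrArg q hj
      rw [map_mul, map_mul, map_pow, map_pow, h1, one_pow, mul_one, map_one] at h3
      exact hne' m h3
    · intro h
      obtain ⟨e, f, hef⟩ := hx h
      obtain ⟨g, hg⟩ := hy h
      -- `h a h⁻¹ = a b`, `b = y^e z^(f + g m)`
      have hym : h * y ^ m * h⁻¹ = y ^ m * z ^ (g * m) := by
        rw [← conj_pow, hg, (show Commute y (z ^ g) from (hczn g y).symm).mul_pow, hzpow]
      have hconj : h * (x * y ^ m) * h⁻¹ = (x * y ^ m) * (y ^ e * z ^ (f + g * m)) := by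
        calc h * (x * y ^ m) * h⁻¹ = (h * x * h⁻¹) * (h * y ^ m * h⁻¹) := by group
          _ = x * y ^ e * (z ^ f * y ^ m) * z ^ (g * m) := by rw [hef, hym]; simp only [mul_assoc]
          _ = x * (y ^ e * y ^ m) * (z ^ f * z ^ (g * m)) := by rw [hczn]; simp only [mul_assoc]
          _ = x * (y ^ m * y ^ e) * z ^ (f + g * m) := by
            rw [← pow_add y, ← pow_add z, add_comm e m, pow_add y]
          _ = _ := by simp only [mul_assoc]
      obtain ⟨s, hs⟩ : ∃ s : ℕ, s = f + g * m := ⟨_, rfl⟩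
      rw [← hs] at hconj
      -- `(a b)^p = 1`
      have hab : ((x * y ^ m) * (y ^ e * z ^ s)) ^ p = 1 := by
        rw [← hconj, conj_pow, hap, mul_one, mul_inv_cancel]
      have hba : (y ^ e * z ^ s) * (x * y ^ m) = (x * y ^ m) * (y ^ e * z ^ s) * z ^ (c * e) := by
        calc (y ^ e * z ^ s) * (x * y ^ m) = y ^ e * (x * y ^ m) * z ^ s := by
              rw [mul_assoc, hczn]; simp only [mul_assoc]
          _ = (y ^ e * x) * y ^ m * z ^ s := by simp only [mul_assoc]
          _ = x * y ^ e * (z ^ (c * e) * y ^ m) * z ^ s := by rw [hyn, hzpow]; simp only [mul_assoc]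
          _ = x * (y ^ e * y ^ m) * (z ^ (c * e) * z ^ s) := by rw [hczn]; simp only [mul_assoc]
          _ = x * (y ^ m * y ^ e) * (z ^ s * z ^ (c * e)) := by
              rw [← pow_add y, add_comm e m, pow_add y, hczn (c * e) (z ^ s)]
          _ = _ := by simp only [mul_assoc]
      have hb : (y ^ e * z ^ s) ^ p = 1 := by
        rw [mul_pow_p hp h2 (c := z ^ (c * e)) (hczn _)
          (by rw [← pow_mul, mul_comm, pow_mul, hzz, one_pow]) hba, hap, one_mul] at hab
        exact hab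
      rw [(show Commute (y ^ e) (z ^ s) from (hczn s (y ^ e)).symm).mul_pow, ← pow_mul z, mul_comm s p,
        pow_mul z, hzz, one_pow, mul_one, ← pow_mul, mul_comm e p, pow_mul, ← hzdef] at hb
      have hordz : orderOf z = p := orderOf_eq_prime hzz hyp
      have hpe : p ∣ e := by rw [← hordz]; exact orderOf_dvd_of_pow_eq_one hb
      obtain ⟨t, ht⟩ := hpe
      exact ⟨t + s, by rw [hconj, ht, pow_mul, ← hzdef, ← pow_add]⟩

end

theorem main_ZA (p : ℕ) (hp : p.Prime) (h2 : p ≠ 2) : ∀ (n : ℕ) (P : Type) [Group P] [Finite P],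
    Nat.card P = n → IsPGroup p P → ¬ IsCyclic P → Con p P := by
  have := Fact.mk hp
  intro n
  induction n using Nat.strong_induction_on with
  | _ n ih =>
    intro P _ _ hn hP hnc
    have hnt : Nontrivial P := by
      by_contra hcon
      rw [not_nontrivial_iff_subsingleton] at hcon
      exact hnc inferInstance
    obtain ⟨z, hz1, hz, hzc⟩ := exists_central hp hP hnt
    haveI : (Subgroup.zpowers z).Normal := by
      constructor
      intro a ha g
      obtain ⟨k, rfl⟩ := Subgroup.mem_zpowers_iff.1 ha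
      have : g * z ^ k = z ^ k * g := ((show Commute g z from hzc g).zpow_right k).eq
      rw [this, mul_inv_cancel_right]
      exact ha
    have hk : ∀ g, QuotientGroup.mk' (Subgroup.zpowers z) g = 1 → ∃ j : ℕ, g = z ^ j := by
      intro g hg
      have h1 : g ∈ Subgroup.zpowers z := by
        rwa [← MonoidHom.mem_ker, QuotientGroup.ker_mk'] at hg
      obtain ⟨j, hj⟩ := (mem_powers_iff_mem_zpowers.2 h1 : g ∈ Submonoid.powers z)
      exact ⟨j, hj.symm⟩
    have hqz : QuotientGroup.mk' (Subgroup.zpowers z) z = 1 := by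
      rw [← MonoidHom.mem_ker, QuotientGroup.ker_mk']
      exact Subgroup.mem_zpowers z
    by_cases hc : IsCyclic (P ⧸ Subgroup.zpowers z)
    · exact con_of_quot_cyclic hp hP hnc hz1 hz hzc (QuotientGroup.mk' (Subgroup.zpowers z))
        (QuotientGroup.mk'_surjective _) hk hqz hc
    · refine con_of_quot hp h2 hz1 hz hzc (QuotientGroup.mk' (Subgroup.zpowers z))
        (QuotientGroup.mk'_surjective _) hk hqz (ih _ ?_ (P ⧸ Subgroup.zpowers z) rfl
          (hP.to_quotient _) hc)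
      rw [← hn, Subgroup.card_eq_card_quotient_mul_card_subgroup (Subgroup.zpowers z)]
      have h1 : 0 < Nat.card (P ⧸ Subgroup.zpowers z) := Nat.card_pos
      have h3 : 1 < Nat.card (Subgroup.zpowers z) := by
        rw [Nat.card_zpowers, orderOf_eq_prime_iff.2 ⟨hz, hz1⟩]
        exact hp.one_lt
      nlinarith

theorem s_ZA : Pool.Agent.L7h27.SI.S_ZA := fun p hp h2 P _ _ hP hnc => main_ZA p hp h2 _ P rfl hP hnc

end Pool.Agent.L7h45.SI
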